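import Pool.Agent.H531.PW.Beta

set_option autoImplicit false

/-!
# Primes just above powers of two in the random sieve model of Banks, Ford and Tao

For every prime `q` a residue class `a q` modulo `q` is drawn uniformly and independently. The random primes are
the integers `n ≥ 3` that are in none of the classes `a q mod q` with `q ≤ zBFT n`, where the sieving limit `zBFT n` is
the largest `m` with `∏_{q ≤ m} (1 - 1 / q)⁻¹ ≤ log n`. The events that different integers are random primes are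
dependent, through all the primes; the model is not of the type in which the integers are decided one after the other.

For `β > 1` and lengths `h n ~ c n log n` let `N(n)` be the number of the random primes in `[β ^ n, β ^ n + h n]`, and
`lam = c / log β`. The theorem: almost surely, the set of the limit points of `N(n) / log n` is exactly the interval
`[u, v]` of the `κ ≥ 0` with `κ log (κ / lam) - κ + lam ≤ 1`, `limsup N(n) / log n = v`, `liminf N(n) / log n = u`;
here `u < lam < v`, and `u > 0` if and only if `lam > 1`; if `lam < 1`, infinitely many of the intervals contain no random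
prime.

For `β = 2` and `h n = p_n`, the case of the question, `1/8 < u < 1/7` and `33/10 < v < 71/20`: almost surely all the
intervals `[2 ^ n, 2 ^ n + p_n]` with `n` large contain more than `(log n) / 8` random primes. The critical base is `e`:
for `β < e` all `[β ^ n, β ^ n + p_n]` with `n` large contain at least `δ log n` random primes, for `β > e` (for example
`β = 3`) infinitely many of them contain none.
-/

open MeasureTheory ProbabilityTheory Filter Topology

namespace Pool.Agent.Results.MP_78b39f_nt.RandomSieveLimitPoints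

/-- `V m = ∏ (1 - 1 / q)` over the primes `q ≤ m` -/
noncomputable def V (m : ℕ) : ℝ := ∏ q ∈ (Finset.range (m + 1)).filter Nat.Prime, (1 - 1 / (q : ℝ))

/-- the classes `a q` are independent, and `a q` is uniform on `0, …, q - 1` for every prime `q` -/
structure Model {Ω : Type} [MeasurableSpace Ω] (P : Measure Ω) (a : ℕ → Ω → ℕ) : Prop where
  measurable : ∀ q, Measurable (a q)
  independent : iIndepFun a P
  uniform : ∀ q, q.Prime → ∀ r < q, P.real {ω | a q ω = r} = 1 / q

/-- the sieving limit of Banks, Ford and Tao: the largest `m` with `∏_{q ≤ m} (1 - 1 / q)⁻¹ ≤ log n` -/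
noncomputable def zBFT (n : ℕ) : ℕ := sSup {m : ℕ | (V m)⁻¹ ≤ Real.log n}

/-- the set of the random primes -/
def R {Ω : Type} (a : ℕ → Ω → ℕ) (ω : Ω) : Set ℕ :=
  {n | 3 ≤ n ∧ ∀ q ≤ zBFT n, q.Prime → n % q ≠ a q ω}

/-- the number of the random primes in `[β ^ n, β ^ n + h n]` -/
noncomputable def N {Ω : Type} (a : ℕ → Ω → ℕ) (ω : Ω) (β : ℝ) (h : ℕ → ℝ) (n : ℕ) : ℕ :=
  (R a ω ∩ {m : ℕ | β ^ n ≤ m ∧ (m : ℝ) ≤ β ^ n + h n}).ncard

/-- the `n`-th prime -/
noncomputable def p (n : ℕ) : ℝ := Nat.nth Nat.Prime (n - 1)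

/-- the rate function -/
noncomputable def rate (lam κ : ℝ) : ℝ := κ * Real.log (κ / lam) - κ + lam

theorem result :
    -- the model exists, and the sieving limit is the right one
    (∃ (Ω : Type) (_ : MeasurableSpace Ω) (P : Measure Ω) (a : ℕ → Ω → ℕ), Model P a) ∧
    Tendsto (fun n => V (zBFT n) * Real.log n) atTop (𝓝 1) ∧
    -- all bases and all lengths of the order `n log n`
    (∀ (β c : ℝ) (h : ℕ → ℝ), 1 < β → 0 < c → Tendsto (fun n : ℕ => h n / (n * Real.log n)) atTop (𝓝 c) →
      ∃ u v : ℝ, 0 ≤ u ∧ u < c / Real.log β ∧ c / Real.log β < v ∧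
        {κ : ℝ | 0 ≤ κ ∧ rate (c / Real.log β) κ ≤ 1} = Set.Icc u v ∧ (0 < u ↔ 1 < c / Real.log β) ∧
        ∀ (Ω : Type) [MeasurableSpace Ω] (P : Measure Ω) (a : ℕ → Ω → ℕ), Model P a → ∀ᵐ ω ∂P,
          {κ : ℝ | MapClusterPt κ atTop fun n : ℕ => (N a ω β h n : ℝ) / Real.log n} = Set.Icc u v ∧
          (∀ v' > v, ∀ᶠ n : ℕ in atTop, (N a ω β h n : ℝ) < v' * Real.log n) ∧
          (∀ u' < u, ∀ᶠ n : ℕ in atTop, u' * Real.log n < (N a ω β h n : ℝ)) ∧
          (c / Real.log β < 1 → ∃ᶠ n : ℕ in atTop, N a ω β h n = 0)) ∧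
    -- the intervals of the question
    (∃ u v : ℝ, 1 / 8 < u ∧ u < 1 / 7 ∧ 33 / 10 < v ∧ v < 71 / 20 ∧
      ∀ (Ω : Type) [MeasurableSpace Ω] (P : Measure Ω) (a : ℕ → Ω → ℕ), Model P a → ∀ᵐ ω ∂P,
        {κ : ℝ | MapClusterPt κ atTop fun n : ℕ => (N a ω 2 p n : ℝ) / Real.log n} = Set.Icc u v ∧
        ∀ᶠ n : ℕ in atTop, Real.log n / 8 < (N a ω 2 p n : ℝ) ∧ (N a ω 2 p n : ℝ) < 71 / 20 * Real.log n) ∧
    -- the critical base for the intervals `[β ^ n, β ^ n + p_n]` is `e`
    ∀ (Ω : Type) [MeasurableSpace Ω] (P : Measure Ω) (a : ℕ → Ω → ℕ), Model P a →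
      (∀ β : ℝ, 1 < β → β < Real.exp 1 →
        ∀ᵐ ω ∂P, ∃ δ : ℝ, 0 < δ ∧ ∀ᶠ n : ℕ in atTop, δ * Real.log n < (N a ω β p n : ℝ)) ∧
      ∀ β : ℝ, Real.exp 1 < β → ∀ᵐ ω ∂P, ∃ᶠ n : ℕ in atTop, N a ω β p n = 0 := by
  have hp : Tendsto (fun n : ℕ => p n / (n * Real.log n)) atTop (𝓝 1) := Pool.Agent.H531.PW.pp_lim
  have hmain : ∀ (β c : ℝ) (h : ℕ → ℝ), 1 < β → 0 < c →
      Tendsto (fun n : ℕ => h n / (n * Real.log n)) atTop (𝓝 c) →
      ∃ u v : ℝ, 0 ≤ u ∧ u < c / Real.log β ∧ c / Real.log β < v ∧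
        {κ : ℝ | 0 ≤ κ ∧ rate (c / Real.log β) κ ≤ 1} = Set.Icc u v ∧ (0 < u ↔ 1 < c / Real.log β) ∧
        ∀ (Ω : Type) [MeasurableSpace Ω] (P : Measure Ω) (a : ℕ → Ω → ℕ), Model P a → ∀ᵐ ω ∂P,
          {κ : ℝ | MapClusterPt κ atTop fun n : ℕ => (N a ω β h n : ℝ) / Real.log n} = Set.Icc u v ∧
          (∀ v' > v, ∀ᶠ n : ℕ in atTop, (N a ω β h n : ℝ) < v' * Real.log n) ∧
          (∀ u' < u, ∀ᶠ n : ℕ in atTop, u' * Real.log n < (N a ω β h n : ℝ)) ∧
          (c / Real.log β < 1 → ∃ᶠ n : ℕ in atTop, N a ω β h n = 0) := by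
    intro β c h hβ hc hh
    have hlb := Real.log_pos hβ
    obtain ⟨u, v, h1, h2, h3, h4, h5, h6, h7⟩ := Pool.Agent.H531.PW.J_set (show 0 < c / Real.log β by positivity)
    refine ⟨u, v, h1, h2, h3, h7, ⟨fun h8 => ?_, fun h8 => (h6 h8).1⟩, fun Ω _ P a hmod => ?_⟩
    · by_contra hcon
      rw [h5 (not_lt.1 hcon)] at h8
      exact lt_irrefl _ h8
    · have hm : Pool.Agent.T2H32.BF.Model P a := ⟨hmod.measurable, hmod.independent, hmod.uniform⟩
      exact Pool.Agent.H531.PW.cluster_beta hβ hc hh rfl h1 h2 h3 h7 hm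
  refine ⟨?_, Pool.Agent.T2H32.BF.z0_lim, hmain, ?_, ?_⟩
  · obtain ⟨Ω, i, P, a, h⟩ := Pool.Agent.T2H32.BF.exists_model
    exact ⟨Ω, i, P, a, h.measurable, h.independent, h.uniform⟩
  · obtain ⟨u, v, h1, h2, h3, h4, -, h6⟩ := hmain 2 1 p (by norm_num) one_pos hp
    obtain ⟨L, hL⟩ : ∃ L : ℝ, L = Real.log 2 := ⟨_, rfl⟩
    have l1 : 0.6931471803 < L := by rw [hL]; exact Real.log_two_gt_d9
    have l2 : L < 0.6931471808 := by rw [hL]; exact Real.log_two_lt_d9
    have l0 : 0 < L := by linarith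
    rw [← hL] at h2 h3 h4
    have hi1 : 1.4426 < 1 / L := by
      rw [lt_div_iff₀ l0]
      linarith
    have hi2 : 1 / L < 1.4427 := by
      rw [div_lt_iff₀ l0]
      linarith
    have hi3 : 1.442695 < 1 / L := by
      rw [lt_div_iff₀ l0]
      linarith
    have hmem : ∀ κ : ℝ, κ ∈ Set.Icc u v ↔ 0 ≤ κ ∧ rate (1 / L) κ ≤ 1 := fun κ => by
      rw [← h4]
      rfl
    have hr : ∀ κ : ℝ, rate (1 / L) κ = κ * Real.log (κ * L) - κ + 1 / L := fun κ => by
      unfold rate
      rw [one_div, div_inv_eq_mul]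
    have hll1 : 1 - 1 / L ≤ Real.log L := by
      have := Real.one_sub_inv_le_log_of_pos l0
      rwa [one_div]
    have hll2 : Real.log L ≤ L - 1 := Real.log_le_sub_one_of_pos l0
    have b1 : 1 / 8 < u := by
      by_contra hcon
      push Not at hcon
      have h7 := ((hmem (1 / 8)).1 ⟨hcon, by linarith⟩).2
      rw [hr, Real.log_mul (by norm_num) l0.ne', Real.log_div (by norm_num) (by norm_num), Real.log_one,
        show (8 : ℝ) = 2 ^ 3 by norm_num, Real.log_pow, ← hL] at h7
      push_cast at h7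
      linarith
    have b2 : u < 1 / 7 := by
      have h7 : (1 : ℝ) / 7 * (99 / 100) ∈ Set.Icc u v := by
        rw [hmem, hr]
        refine ⟨by norm_num, ?_⟩
        have h8 : Real.log (1 / 7 * (99 / 100) * L) ≤ Real.log L - 3 * L + 1 / 7 := by
          have e : 1 / 7 * (99 / 100) * L ≤ L * (1 / 2 ^ 3) * (8 / 7) := by nlinarith
          refine (Real.log_le_log (by positivity) e).trans ?_
          rw [Real.log_mul (by positivity) (by norm_num), Real.log_mul (by positivity) (by norm_num), one_div,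
            Real.log_inv, Real.log_pow, ← hL]
          have := Real.log_le_sub_one_of_pos (show (0 : ℝ) < 8 / 7 by norm_num)
          push_cast
          linarith
        have h9 : (1 : ℝ) / 7 * (99 / 100) * Real.log (1 / 7 * (99 / 100) * L) ≤
            1 / 7 * (99 / 100) * (Real.log L - 3 * L + 1 / 7) :=
          mul_le_mul_of_nonneg_left h8 (by norm_num)
        linarith
      have := h7.1
      linarith
    have b3 : 33 / 10 < v := by
      have h7 : (33 : ℝ) / 10 + 1 / 100 ∈ Set.Icc u v := by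
        rw [hmem, hr]
        refine ⟨by norm_num, ?_⟩
        have h8 : Real.log ((33 / 10 + 1 / 100) * L) ≤ L + (331 / 200 * L - 1) := by
          have e : (33 / 10 + 1 / 100) * L = 2 * (331 / 200 * L) := by ring
          rw [e, Real.log_mul (by norm_num) (by positivity), ← hL]
          have := Real.log_le_sub_one_of_pos (show (0 : ℝ) < 331 / 200 * L by positivity)
          linarith
        nlinarith
      have := h7.2
      linarith
    have b4 : v < 71 / 20 := by
      by_contra hcon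
      push Not at hcon
      have h7 := ((hmem (71 / 20)).1 ⟨by linarith, hcon⟩).2
      rw [hr] at h7
      have h8 : L + (1 - (71 / 40 * L)⁻¹) ≤ Real.log (71 / 20 * L) := by
        have e : (71 / 20) * L = 2 * (71 / 40 * L) := by ring
        rw [e, Real.log_mul (by norm_num) (by positivity), ← hL]
        have := Real.one_sub_inv_le_log_of_pos (show (0 : ℝ) < 71 / 40 * L by positivity)
        linarith
      have h9 : (71 / 40 * L)⁻¹ = 40 / 71 * (1 / L) := by
        field_simp
      rw [h9] at h8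
      linarith
    refine ⟨u, v, b1, b2, b3, b4, fun Ω _ P a hmod => ?_⟩
    filter_upwards [h6 Ω P a hmod] with ω hω
    obtain ⟨w1, w2, w3, -⟩ := hω
    refine ⟨w1, ?_⟩
    filter_upwards [w2 (71 / 20) b4, w3 (1 / 8) b1] with n w4 w5
    exact ⟨by linarith, w4⟩
  · intro Ω _ P a hmod
    refine ⟨fun β hβ hβe => ?_, fun β hβ => ?_⟩
    · obtain ⟨u, v, h1, h2, h3, h4, h5, h6⟩ := hmain β 1 p hβ one_pos hp
      have hlb := Real.log_pos hβ
      have hl1 : Real.log β < 1 := by
        rw [Real.log_lt_iff_lt_exp (by linarith)]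
        exact hβe
      have hu : 0 < u := h5.2 (by rwa [lt_div_iff₀ hlb, one_mul])
      filter_upwards [h6 Ω P a hmod] with ω hω
      exact ⟨u / 2, by linarith, hω.2.2.1 (u / 2) (by linarith)⟩
    · have h1e : (1 : ℝ) < Real.exp 1 := by
        have := Real.add_one_le_exp (1 : ℝ)
        linarith
      obtain ⟨u, v, h1, h2, h3, h4, h5, h6⟩ := hmain β 1 p (by linarith) one_pos hp
      have hl1 : 1 < Real.log β := by
        rw [Real.lt_log_iff_exp_lt (by linarith)]
        exact hβ
      filter_upwards [h6 Ω P a hmod] with ω hω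
      exact hω.2.2.2 (by rwa [div_lt_one (by linarith)])

end Pool.Agent.Results.MP_78b39f_nt.RandomSieveLimitPoints
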