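import Mathlib
import Pool.Agent.H556.PT.Digits

/-!
# The divisors of the numbers just above powers of two

The question asks for a prime among the numbers `N = 2 ^ n + k`, `0 ≤ k ≤ p_n`. The heuristics behind it
treats the odd ones among them as random integers of their size. Here we prove, for all large `n` and
all odd `k` up to a small power of `2 ^ n` (much larger than `p_n`), that their large divisors are not
structured, apart from the divisors which come from the factorization of a polynomial.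

(1) Let `S` be a finite set of primes and `g` a sum of `r` terms `c u`, `|c| ≤ 2 ^ (η n)`, `u` an `S`-unit of
height at most `2 ^ (K n)` (for instance `2 ^ a ± 3 ^ b ± 5 ^ c`). If `N` has no prime factor in `S` and
does not divide (the numerator of) `g`, then `gcd (N, g) < N ^ (1 - 1 / r + δ)`; and
`gcd (N, g) < N ^ δ`, unless `k` is an `l`-th power for an odd prime divisor `l ≤ B` of `n`, or `n ≡ 2 mod 4`
and `k` is a fourth power, in which cases `2 ^ n + k` has an algebraic factor.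

(2) So for all large `n` and all odd `N` in the interval `[2 ^ n, 2 ^ n + p_n]`, without this exception, every
multiple `m`, `0 < m < N`, of a divisor `d ≥ N ^ δ` of `N` has more than `r` binary digit changes.

(3) The exponent `1 - 1 / r` of (1) is sharp for odd `r`, already for `k = 1`.

The proof of (1) uses the subspace theorem (gcd of polynomials in `S`-units with moving coefficients,
after Corvaja-Zannier and Levin).
-/

set_option autoImplicit false

namespace Pool.Agent.Results.MP_78b39f_nt.StructuredDivisors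

/-- the `n`-th prime, `p 1 = 2` -/
noncomputable def p (n : ℕ) : ℕ := Nat.nth Nat.Prime (n - 1)

/-- `g` is a sum of `r` terms `c u`, where `c` is an integer of absolute value at most `C` and `u` is a
nonzero rational number with numerator and denominator at most `H` (in absolute value), whose prime
factors (of the numerator and of the denominator) belong to `S`. -/
def IsShort (S : Finset ℕ) (r : ℕ) (C H : ℝ) (g : ℚ) : Prop :=
  ∃ (c : Fin r → ℤ) (u : Fin r → ℚ), (∀ i, |(c i : ℝ)| ≤ C) ∧ (∀ i, u i ≠ 0) ∧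
    (∀ i, ∀ l : ℕ, l.Prime → (l ∣ (u i).num.natAbs ∨ l ∣ (u i).den) → l ∈ S) ∧
    (∀ i, |((u i).num : ℝ)| ≤ H ∧ ((u i).den : ℝ) ≤ H) ∧ g = ∑ i, (c i : ℚ) * u i

/-- `k` is an `l`-th power for an odd prime divisor `l ≤ B` of `n`, or `n ≡ 2 mod 4` and `k` is a fourth
power. -/
def Exceptional (B n k : ℕ) : Prop :=
  (∃ l m : ℕ, l.Prime ∧ l ≠ 2 ∧ l ≤ B ∧ l ∣ n ∧ m ^ l = k) ∨ (n % 4 = 2 ∧ ∃ m : ℕ, m ^ 4 = k)

/-- the `i`-th binary digit of `m` (from the right, `i = 0, 1, …`) -/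
def digit (m i : ℕ) : ℕ := m / 2 ^ i % 2

/-- the number of `i < N` for which the `i`-th and the `(i + 1)`-th binary digit of `m` differ -/
def digitChanges (m N : ℕ) : ℕ :=
  ((Finset.range N).filter fun i => digit m i ≠ digit m (i + 1)).card

lemma Exceptional.mono {B B' n k : ℕ} (h : B ≤ B') (hE : Exceptional B n k) :
    Exceptional B' n k := by
  rcases hE with ⟨l, m, h1, h2, h3, h4⟩ | h1
  · exact Or.inl ⟨l, m, h1, h2, h3.trans h, h4⟩
  · exact Or.inr h1

lemma sharp {r a : ℕ} (hr : Odd r) (ha : 1 ≤ a) : ∃ g : ℤ, 0 < g ∧ g < 2 ^ (r * a) + 1 ∧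
    g ∣ 2 ^ (r * a) + 1 ∧ IsShort {2} r 1 (2 ^ (r * a)) g ∧
    ((2 ^ (r * a) + 1 : ℕ) : ℝ) ^ (1 - 1 / (r : ℝ)) ≤ 2 * g := by
  have hr0 : 0 < r := hr.pos
  set x : ℤ := 2 ^ a with hx
  have hx2 : 2 ≤ x := by
    calc (2 : ℤ) = 2 ^ 1 := by norm_num
      _ ≤ 2 ^ a := pow_le_pow_right₀ (by norm_num) ha
  set g : ℤ := ∑ i ∈ Finset.range r, (-x) ^ i with hg
  have hid : g * (x + 1) = 2 ^ (r * a) + 1 := by
    have h1 := geom_sum_mul (-x) r
    rw [hr.neg_pow] at h1
    have h2 : x ^ r = 2 ^ (r * a) := by rw [hx, ← pow_mul, mul_comm]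
    rw [← h2, hg]
    linarith
  have hN : (0 : ℤ) < 2 ^ (r * a) + 1 := by positivity
  have hgpos : 0 < g := by
    rw [← hid] at hN
    by_contra h0
    push Not at h0
    nlinarith
  refine ⟨g, hgpos, ?_, ⟨x + 1, hid.symm⟩, ?_, ?_⟩
  · rw [← hid]
    nlinarith
  · refine ⟨fun i => (-1) ^ (i : ℕ), fun i => ((2 ^ (a * (i : ℕ)) : ℤ) : ℚ), ?_, ?_, ?_, ?_, ?_⟩
    · intro i
      push_cast
      rw [abs_pow, abs_neg, abs_one, one_pow]
    · intro i
      positivity
    · intro i l hl hd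
      simp only [Rat.num_intCast, Rat.den_intCast, Nat.dvd_one] at hd
      rcases hd with h5 | h5
      · rw [Int.natAbs_pow] at h5
        have h6 := hl.dvd_of_dvd_pow h5
        rw [Finset.mem_singleton]
        exact (Nat.prime_dvd_prime_iff_eq hl Nat.prime_two).1 h6
      · exact absurd h5 hl.one_lt.ne'
    · intro i
      simp only [Rat.num_intCast, Rat.den_intCast]
      refine ⟨?_, ?_⟩
      · push_cast
        rw [abs_of_pos (by positivity)]
        apply pow_le_pow_right₀ (by norm_num)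
        have := i.2
        nlinarith
      · exact_mod_cast one_le_pow₀ (by norm_num)
    · rw [hg, Finset.sum_range]
      push_cast
      refine Finset.sum_congr rfl fun i _ => ?_
      rw [hx, neg_pow]
      push_cast
      rw [← pow_mul]
  · -- the size
    have hrR : (0 : ℝ) < r := by exact_mod_cast hr0
    have hidR : (g : ℝ) * ((2 : ℝ) ^ a + 1) = (2 : ℝ) ^ (r * a) + 1 := by
      have := hid
      rw [hx] at this
      exact_mod_cast this
    set N : ℝ := (2 : ℝ) ^ (r * a) + 1 with hNdef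
    have hNpos : 0 < N := by positivity
    have h1 : (2 : ℝ) ^ a ≤ N ^ (1 / (r : ℝ)) := by
      have h2 : (2 : ℝ) ^ a = ((2 : ℝ) ^ (r * a)) ^ (1 / (r : ℝ)) := by
        rw [← Real.rpow_natCast 2 (r * a), ← Real.rpow_mul (by norm_num)]
        push_cast
        rw [show (r : ℝ) * a * (1 / r) = a by field_simp, Real.rpow_natCast]
      rw [h2]
      apply Real.rpow_le_rpow (by positivity) _ (by positivity)
      rw [hNdef]
      linarith
    have h3 : N ^ (1 - 1 / (r : ℝ)) * N ^ (1 / (r : ℝ)) = N := by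
      rw [← Real.rpow_add hNpos]
      simp
    have hge : (1 : ℝ) ≤ 2 ^ a := one_le_pow₀ (by norm_num)
    have h4 : (0 : ℝ) < N ^ (1 - 1 / (r : ℝ)) := by positivity
    have hcast : ((2 ^ (r * a) + 1 : ℕ) : ℝ) = N := by rw [hNdef]; push_cast; rfl
    rw [hcast]
    have hg0 : (0 : ℝ) < g := by exact_mod_cast hgpos
    have h5 : N ^ (1 - 1 / (r : ℝ)) * (2 : ℝ) ^ a ≤ g * ((2 : ℝ) ^ a + 1) := by
      rw [hidR]
      calc N ^ (1 - 1 / (r : ℝ)) * (2 : ℝ) ^ a ≤ N ^ (1 - 1 / (r : ℝ)) * N ^ (1 / (r : ℝ)) :=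
            mul_le_mul_of_nonneg_left h1 h4.le
        _ = N := h3
    have h6 : (g : ℝ) * ((2 : ℝ) ^ a + 1) ≤ 2 * g * (2 : ℝ) ^ a := by nlinarith
    exact le_of_mul_le_mul_right (h5.trans h6) (by positivity)

theorem result :
    -- (1) common divisors with short sums of `S`-units
    (∀ (S : Finset ℕ) (r : ℕ) (K δ : ℝ), 0 < δ → ∃ η : ℝ, 0 < η ∧ ∃ B : ℕ, ∀ n ≥ B, ∀ k : ℕ, Odd k →
      (k : ℝ) ≤ ((2 : ℝ) ^ n) ^ η → (∀ l ∈ S, l.Prime → ¬ l ∣ 2 ^ n + k) →
      ∀ g : ℚ, IsShort S r (((2 : ℝ) ^ n) ^ η) (((2 : ℝ) ^ n) ^ K) g →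
      ¬ ((2 ^ n + k : ℕ) : ℤ) ∣ g.num →
      ((Int.gcd (2 ^ n + k : ℕ) g.num : ℕ) : ℝ) < ((2 ^ n + k : ℕ) : ℝ) ^ (1 - 1 / (r : ℝ) + δ) ∧
      (¬ Exceptional B n k →
        ((Int.gcd (2 ^ n + k : ℕ) g.num : ℕ) : ℝ) < ((2 ^ n + k : ℕ) : ℝ) ^ δ)) ∧
    -- (2) the interval of the problem
    (∀ (r : ℕ) (δ : ℝ), 0 < δ → ∃ B : ℕ, ∀ n ≥ B, ∀ N : ℕ, Odd N → 2 ^ n ≤ N → N ≤ 2 ^ n + p n →
      ¬ Exceptional B n (N - 2 ^ n) → ∀ d m : ℕ, d ∣ N → (N : ℝ) ^ δ ≤ d → d ∣ m → 0 < m → m < N →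
      r < digitChanges m (n + 1)) ∧
    -- (3) the exponent `1 - 1 / r` is sharp
    ∀ r a : ℕ, Odd r → 1 ≤ a → ∃ g : ℤ, 0 < g ∧ g < 2 ^ (r * a) + 1 ∧ g ∣ 2 ^ (r * a) + 1 ∧
      IsShort {2} r 1 (2 ^ (r * a)) g ∧
      ((2 ^ (r * a) + 1 : ℕ) : ℝ) ^ (1 - 1 / (r : ℝ)) ≤ 2 * g := by
  refine ⟨?_, ?_, fun r a hr ha => sharp hr ha⟩
  · intro S r K δ hδ
    obtain ⟨η1, hη1, B1, h1⟩ := Pool.Agent.H556.PT.all2 S r K δ hδ
    obtain ⟨η2, hη2, B2, h2⟩ := Pool.Agent.H556.PT.rough2 S r K δ hδ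
    refine ⟨min η1 η2, lt_min hη1 hη2, max B1 B2, fun n hn k hk hks hS g hg hN => ?_⟩
    obtain ⟨c, u, hc, hu0, hu, huB, rfl⟩ := hg
    have h2n : (1 : ℝ) ≤ (2 : ℝ) ^ n := one_le_pow₀ (by norm_num)
    have m1 : ((2 : ℝ) ^ n) ^ (min η1 η2) ≤ ((2 : ℝ) ^ n) ^ η1 :=
      Real.rpow_le_rpow_of_exponent_le h2n (min_le_left _ _)
    have m2 : ((2 : ℝ) ^ n) ^ (min η1 η2) ≤ ((2 : ℝ) ^ n) ^ η2 :=
      Real.rpow_le_rpow_of_exponent_le h2n (min_le_right _ _)
    refine ⟨?_, fun hE => ?_⟩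
    · exact h1 n (le_of_max_le_left hn) k hk (hks.trans m1) hS c u
        (fun i => (hc i).trans m1) hu0 hu huB hN _
        (Int.natCast_dvd_natCast.1 (Int.gcd_dvd_left _ _)) (Int.gcd_dvd_right _ _)
    · refine h2 n (le_of_max_le_right hn) k hk (hks.trans m2) hS ?_ ?_ c u
        (fun i => (hc i).trans m2) hu0 hu huB hN _
        (Int.natCast_dvd_natCast.1 (Int.gcd_dvd_left _ _)) (Int.gcd_dvd_right _ _)
      · intro l hl1 hl2 hl3 hl4 m hm
        exact hE (Or.inl ⟨l, m, hl1, hl2, hl3.trans (le_max_right _ _), hl4, hm⟩)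
      · intro h4 m hm
        exact hE (Or.inr ⟨h4, m, hm⟩)
  · intro r δ hδ
    obtain ⟨η, hη, B, h⟩ := Pool.Agent.H556.PT.changes2 r δ hδ
    obtain ⟨B', hB'⟩ := Filter.eventually_atTop.1 (Pool.Agent.H556.PT.nth_small hη)
    refine ⟨max (B + 1) B', fun n hn N hodd hN1 hN2 hE d m hd hdN hdm hm0 hmN => ?_⟩
    obtain ⟨k, rfl⟩ : ∃ k, N = 2 ^ n + k := ⟨N - 2 ^ n, by omega⟩
    have hn1 : B + 1 ≤ n := le_of_max_le_left hn
    have hev : Even (2 ^ n) := (even_two).pow_of_ne_zero (by omega)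
    have hk : Odd k := by
      rcases Nat.even_or_odd k with h3 | h3
      · exact absurd (hev.add h3) (Nat.not_even_iff_odd.2 hodd)
      · exact h3
    have hkp : k ≤ p n := by omega
    rw [Nat.add_sub_cancel_left] at hE
    refine h n (by omega) k hk ?_ ?_ ?_ d m hd hdN hdm hm0 hmN
    · refine le_trans ?_ (hB' n (le_of_max_le_right hn))
      exact_mod_cast hkp
    · intro l hl1 hl2 hl3 hl4 m' hm'
      exact hE (Or.inl ⟨l, m', hl1, hl2, hl3.trans ((Nat.le_succ B).trans (le_max_left _ _)),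
        hl4, hm'⟩)
    · intro h4 m' hm'
      exact hE (Or.inr ⟨h4, m', hm'⟩)

end Pool.Agent.Results.MP_78b39f_nt.StructuredDivisors
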